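import Pool.Agent.Helper94.KC.Defs

/-!
# Project KC (MP_bf413e_co): checkers for the local lemma

The points of the ball of radius 6 have the codes `(x + 6) + 16 (y + 6) < 256`; sets of points are
natural numbers (bit masks).
-/

set_option autoImplicit false

namespace Pool.Agent.Helper94.KC.LL

/-- code of a point -/
def c6 (p : ℤ × ℤ) : ℕ := ((p.1 + 6) + 16 * (p.2 + 6)).toNat

/-- point with a given code -/
def p6 (q : ℕ) : ℤ × ℤ := (((q % 16 : ℕ) : ℤ) - 6, ((q / 16 : ℕ) : ℤ) - 6)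

/-- bit test -/
def tb (m i : ℕ) : Bool := Nat.beq (Nat.land (Nat.shiftRight m i) 1) 1

/-- ball of radius 3 -/
def b3 : ℕ := 0x7800f801f803f803f003e003c0000000000000

/-- ball of radius 5 -/
def b5 : ℕ := 0x7e00fe01fe03fe07fe0ffe0ffc0ff80ff00fe00fc00000

/-- the bits `256 k`, `k < 5` -/
def k0 : ℕ := 1 + 2 ^ 256 + 2 ^ 512 + 2 ^ 768 + 2 ^ 1024

/-- neighbours -/
def nbq (q : ℕ) : ℕ := Nat.shiftLeft 6442614787 (Nat.sub q 16)

def bt (q : ℕ) : ℕ := Nat.shiftLeft 1 q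

/-! ### the decision tree -/

/-- decoding of a record: a list of pairs -/
noncomputable def dec (f : ℕ) : ℕ → List (ℕ × ℕ) :=
  Nat.rec (fun _ => []) (fun _ ih n => cond (Nat.beq n 0) []
    ((Nat.land n 255, Nat.land (Nat.shiftRight n 8) 255) :: ih (Nat.shiftRight n 16))) f

/-- all pairs have the same colour in the state `s` -/
noncomputable def mono (s : ℕ) (L : List (ℕ × ℕ)) : Bool :=
  List.rec true (fun a _ ih => cond (Nat.beq (Nat.land (Nat.land (Nat.shiftRight s a.1)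
    (Nat.shiftRight s a.2)) k0) 0) false ih) L

/-- the vertex `t` has a neighbour of colour `k` in the state `s` -/
def hit (s t k : ℕ) : Bool :=
  Nat.blt 0 (Nat.land (Nat.shiftRight s (Nat.mul 256 k)) (nbq t))

def add (s t k : ℕ) : ℕ := Nat.lor s (bt (Nat.add (Nat.mul 256 k) t))

/-- one colour `j` of the vertex `t` -/
noncomputable def nst (ih : ℕ → ℕ → ℕ → (ℕ → Bool) → Bool) (s u t j m : ℕ) (c : ℕ → Bool) : Bool :=
  cond (Nat.blt u j) (c m) (cond (hit s t j) (c m)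
    (ih (add s t j) (cond (Nat.beq u j) (Nat.succ u) u) m c))

/-- a node or a leaf -/
noncomputable def bdy (REC : ℕ → ℕ) (N : ℕ) (orc : ℕ → ℕ → ℕ → Bool)
    (ih : ℕ → ℕ → ℕ → (ℕ → Bool) → Bool) (s u tok n' : ℕ) (k : ℕ → Bool) : Bool :=
  cond (Nat.blt tok 256)
    (cond (tb b3 tok)
      (nst ih s u tok 0 n' (fun n0 => nst ih s u tok 1 n0 (fun n1 => nst ih s u tok 2 n1
        (fun n2 => nst ih s u tok 3 n2 (fun n3 => nst ih s u tok 4 n3 k))))) false)
    (cond (Nat.blt tok 60000)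
      (cond (Nat.blt (Nat.sub tok 256) N)
        (cond (mono s (dec 6 (REC (Nat.sub tok 256)))) (k n') false) false)
      (cond (orc (Nat.sub tok 60000) s u) (k n') false))

/-- the decision tree -/
noncomputable def run (REC : ℕ → ℕ) (N : ℕ) (orc : ℕ → ℕ → ℕ → Bool) (f : ℕ) :
    ℕ → ℕ → ℕ → (ℕ → Bool) → Bool :=
  Nat.rec (fun _ _ _ _ => false) (fun _ ih s u n k =>
    bdy REC N orc ih s u (Nat.land n 65535) (Nat.shiftRight n 16) k) f

/-! ### deletion sequences -/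

noncomputable def rr (L : List (ℕ × ℕ)) (q : ℕ) : ℕ :=
  List.rec q (fun a _ ih => cond (Nat.beq q a.2) a.1 ih) L

noncomputable def blk (L : List (ℕ × ℕ)) (q : ℕ) : ℕ :=
  List.rec (bt q) (fun a _ ih => cond (Nat.beq q a.1) (Nat.lor (bt a.2) ih) ih) L

noncomputable def nbU (L : List (ℕ × ℕ)) (q : ℕ) : ℕ :=
  List.rec (nbq q) (fun a _ ih => cond (Nat.beq q a.1) (Nat.lor (nbq a.2) ih) ih) L

noncomputable def mapU (L : List (ℕ × ℕ)) : ℕ → ℕ :=
  List.rec (fun U => U) (fun a _ ih U => ih (cond (tb U a.2)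
    (Nat.lor (Nat.xor U (bt a.2)) (bt a.1)) U)) L

noncomputable def mm (L : List (ℕ × ℕ)) : ℕ :=
  List.rec 0 (fun a _ ih => Nat.lor (Nat.lor (bt a.1) (bt a.2)) ih) L

def clr (U : ℕ) : ℕ := cond (Nat.beq U 0) 0 (Nat.xor U (bt (Nat.log2 U)))

def le4 (U : ℕ) : Bool := Nat.beq (clr (clr (clr (clr U)))) 0

def ge2 (D : ℕ) : ℕ :=
  (fun S0 S1 S2 S3 S4 S5 =>
    (fun g1 g2 => (fun h1 h2 => (fun i1 i2 => (fun j1 j2 =>
      Nat.lor j2 (Nat.land j1 S5))
      (Nat.lor i1 S4) (Nat.lor i2 (Nat.land i1 S4)))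
      (Nat.lor h1 S3) (Nat.lor h2 (Nat.land h1 S3)))
      (Nat.lor g1 S2) (Nat.lor g2 (Nat.land g1 S2)))
      (Nat.lor S0 S1) (Nat.land S0 S1))
    (Nat.shiftRight D 1) (Nat.shiftLeft D 1) (Nat.shiftRight D 16) (Nat.shiftLeft D 16)
    (Nat.shiftRight D 15) (Nat.shiftLeft D 15)

def clo (UM D : ℕ) : ℕ := Nat.lor D (Nat.land (ge2 D) UM)

noncomputable def okd (L : List (ℕ × ℕ)) (D q : ℕ) : Bool :=
  le4 (mapU L ((fun U => Nat.xor U (Nat.land U D)) (nbU L q)))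

noncomputable def dstep (L : List (ℕ × ℕ)) (UM D q : ℕ) : ℕ :=
  cond (Nat.beq q 255) (clo UM D)
    (cond (tb b5 q) (cond (Nat.beq (rr L q) q) (cond (okd L D q) (Nat.lor D (blk L q)) 0) 0) 0)

noncomputable def dseq (L : List (ℕ × ℕ)) (UM : ℕ) (f : ℕ) : ℕ → ℕ → ℕ :=
  Nat.rec (fun _ D => D) (fun _ ih e D => cond (Nat.beq e 0) D
    (ih (Nat.shiftRight e 8) (dstep L UM D (Nat.land e 255)))) f

noncomputable def cseq (UM : ℕ) (f : ℕ) : ℕ → Bool :=
  Nat.rec (fun D => Nat.beq D b5) (fun _ ih D => cond (Nat.beq D b5) true (ih (clo UM D))) f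

/-- validity of a record (`M = L`) -/
noncomputable def vld (M L : List (ℕ × ℕ)) : Bool :=
  List.rec true (fun a _ ih => cond (Nat.beq a.1 a.2) false (cond (tb b3 a.1) (cond (tb b3 a.2)
    (cond (Nat.beq (rr M a.1) a.1) (cond (Nat.beq (rr M a.2) a.1) ih false) false) false)
      false)) L

noncomputable def gchk (L : List (ℕ × ℕ)) (e : ℕ) : Bool :=
  cond (vld L L) (cseq (Nat.xor b5 (Nat.land b5 (mm L))) 12
    (dseq L (Nat.xor b5 (Nat.land b5 (mm L))) 30 e 0)) false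

/-- bounded conjunction -/
noncomputable def allb (f : ℕ → Bool) (n : ℕ) : Bool :=
  Nat.rec true (fun i ih => cond (f i) ih false) n

end Pool.Agent.Helper94.KC.LL
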