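import Pool.Agent.Helper94.KC.L.Sound

/-!
# Project KC (MP_bf413e_co): soundness of the deletion sequences
-/

set_option autoImplicit false

namespace Pool.Agent.Helper94.KC.LL

open scoped Classical
open Finset

/-- the identification of a record -/
noncomputable def rOf (L : List (ℕ × ℕ)) (p : ℤ × ℤ) : ℤ × ℤ :=
  if hn p ≤ 3 then p6 (rr L (c6 p)) else p

theorem c6_p6 (q : ℕ) : c6 (p6 q) = q := by
  unfold c6 p6
  simp only
  omega

theorem p6_inj {a b : ℕ} (h : p6 a = p6 b) : a = b := by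
  rw [← c6_p6 a, h, c6_p6]

theorem hn_le {p : ℤ × ℤ} {n : ℕ} (h : hn p ≤ n) :
    -(n : ℤ) ≤ p.1 ∧ p.1 ≤ n ∧ -(n : ℤ) ≤ p.2 ∧ p.2 ≤ n ∧ -(n : ℤ) ≤ p.1 + p.2 ∧ p.1 + p.2 ≤ n := by
  unfold hn at h
  omega

theorem hn_of {p : ℤ × ℤ} {n : ℕ} (h : -(n : ℤ) ≤ p.1 ∧ p.1 ≤ n ∧ -(n : ℤ) ≤ p.2 ∧ p.2 ≤ n ∧
    -(n : ℤ) ≤ p.1 + p.2 ∧ p.1 + p.2 ≤ n) : hn p ≤ n := by
  unfold hn
  omega

theorem p6_c6 {p : ℤ × ℤ} (h : hn p ≤ 6) : p6 (c6 p) = p := by
  have := hn_le h
  unfold c6 p6
  ext <;> simp only <;> omega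

theorem c6_lt {p : ℤ × ℤ} (h : hn p ≤ 6) : c6 p < 256 := by
  have := hn_le h
  unfold c6
  omega

/-- the six directions -/
def dr (i : Fin 6) : ℤ × ℤ := ![(1, 0), (-1, 0), (0, 1), (0, -1), (-1, 1), (1, -1)] i

theorem hn_one {d : ℤ × ℤ} : hn d = 1 ↔ ∃ i, d = dr i := by
  constructor
  · intro h
    have h1 := hn_le (le_of_eq h)
    obtain ⟨a, b⟩ := d
    simp only at h1
    have ha : a = -1 ∨ a = 0 ∨ a = 1 := by omega
    have hb : b = -1 ∨ b = 0 ∨ b = 1 := by omega
    rcases ha with rfl | rfl | rfl <;> rcases hb with rfl | rfl | rfl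
    · exact absurd h1 (by norm_num)
    · exact ⟨1, rfl⟩
    · exact ⟨4, rfl⟩
    · exact ⟨3, rfl⟩
    · exact absurd h (by decide)
    · exact ⟨2, rfl⟩
    · exact ⟨5, rfl⟩
    · exact ⟨0, rfl⟩
    · exact absurd h1 (by norm_num)
  · rintro ⟨i, rfl⟩
    fin_cases i <;> decide

/-- the code of a neighbour -/
def dl (i : Fin 6) : ℤ := ![1, -1, 16, -16, 15, -15] i

theorem dr_dl (i : Fin 6) : (dr i).1 + 16 * (dr i).2 = dl i := by
  fin_cases i <;> rfl

theorem dr_bd (i : Fin 6) : -1 ≤ (dr i).1 ∧ (dr i).1 ≤ 1 ∧ -1 ≤ (dr i).2 ∧ (dr i).2 ≤ 1 := by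
  fin_cases i <;> decide

theorem dl_cases (i : Fin 6) : dl i = 1 ∨ dl i = -1 ∨ dl i = 16 ∨ dl i = -16 ∨ dl i = 15 ∨
    dl i = -15 := by
  fin_cases i <;> simp [dl]

theorem c6_int {p : ℤ × ℤ} (h : hn p ≤ 6) : ((c6 p : ℕ) : ℤ) = (p.1 + 6) + 16 * (p.2 + 6) := by
  have := hn_le h
  unfold c6
  omega

theorem hn_nb {p q : ℤ × ℤ} {n : ℕ} (hp : hn p ≤ n) (h : hn (q - p) = 1) : hn q ≤ n + 1 := by
  have h1 := hn_le (le_of_eq h)
  have h2 := hn_le hp
  apply hn_of
  simp only [Prod.fst_sub, Prod.snd_sub] at h1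
  push_cast at *
  omega

theorem c6_nb {p : ℤ × ℤ} (hp : hn p ≤ 5) (i : Fin 6) :
    ((c6 (p + dr i) : ℕ) : ℤ) = c6 p + dl i := by
  have h1 : hn (p + dr i) ≤ 6 := hn_nb hp (by
    rw [add_sub_cancel_left]; exact hn_one.mpr ⟨i, rfl⟩)
  rw [c6_int h1, c6_int (by omega), ← dr_dl i, Prod.fst_add, Prod.snd_add]
  ring

/-- masks and balls -/
theorem b3_iff {p : ℤ × ℤ} (h : hn p ≤ 6) : b3.testBit (c6 p) = true ↔ hn p ≤ 3 := by
  have key : ∀ q < 256, (b3.testBit q = true ↔ hn (p6 q) ≤ 3) := by decide +kernel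
  have := key (c6 p) (c6_lt h)
  rwa [p6_c6 h] at this

theorem b5_iff {p : ℤ × ℤ} (h : hn p ≤ 6) : b5.testBit (c6 p) = true ↔ hn p ≤ 5 := by
  have key : ∀ q < 256, (b5.testBit q = true ↔ hn (p6 q) ≤ 5) := by decide +kernel
  have := key (c6 p) (c6_lt h)
  rwa [p6_c6 h] at this

theorem b3_p6 {q : ℕ} (h : b3.testBit q = true) : hn (p6 q) ≤ 3 := by
  have key : ∀ q < 256, (b3.testBit q = true → hn (p6 q) ≤ 3) := by decide +kernel
  exact key q (by have := b3_lt h; omega) h

theorem b5_p6 {q : ℕ} (h : b5.testBit q = true) : hn (p6 q) ≤ 5 := by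
  have key : ∀ q < 256, (b5.testBit q = true → hn (p6 q) ≤ 5) := by decide +kernel
  refine key q ?_ h
  by_contra hc
  have h1 : b5 < 2 ^ q := lt_of_lt_of_le (by decide +kernel : b5 < 2 ^ 256)
    (Nat.pow_le_pow_right (by norm_num) (by omega))
  rw [Nat.testBit_lt_two_pow h1] at h
  exact absurd h (by simp)

/-- neighbours are in the mask -/
theorem nb_mask {p q : ℤ × ℤ} (hp : hn p ≤ 5) (h : hn (q - p) = 1) :
    (nbq (c6 p)).testBit (c6 q) = true := by
  have hb := hn_le hp
  obtain ⟨i, hi⟩ := hn_one.mp h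
  have hq : q = p + dr i := by rw [← hi]; simp
  subst hq
  have e : nbq (c6 p) = 6442614787 <<< (c6 p - 16) := rfl
  rw [e, Nat.testBit_shiftLeft, Bool.and_eq_true, decide_eq_true_eq, nb0_bit]
  have h1 := c6_nb hp i
  have h2 := c6_int (p := p) (by omega)
  have h3 := dl_cases i
  omega

/-- on the ball of radius 3 the mask contains only neighbours -/
theorem nb_conv {t w : ℕ} (ht : b3.testBit t = true) (hw : b3.testBit w = true)
    (h : (nbq t).testBit w = true) : hn (p6 w - p6 t) = 1 := by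
  have h1 := b3_p6 ht
  have h2 := b3_p6 hw
  have h3 := hn_le h1
  have h4 := hn_le h2
  have e : nbq t = 6442614787 <<< (t - 16) := rfl
  rw [e, Nat.testBit_shiftLeft, Bool.and_eq_true, decide_eq_true_eq, nb0_bit] at h
  have ht2 := b3_lt ht
  apply hn_one.mpr
  unfold p6 at *
  simp only at h3 h4
  rcases h.2 with e | e | e | e | e | e
  · exact ⟨3, by ext <;> simp [dr] <;> omega⟩
  · exact ⟨5, by ext <;> simp [dr] <;> omega⟩
  · exact ⟨1, by ext <;> simp [dr] <;> omega⟩
  · exact ⟨0, by ext <;> simp [dr] <;> omega⟩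
  · exact ⟨4, by ext <;> simp [dr] <;> omega⟩
  · exact ⟨2, by ext <;> simp [dr] <;> omega⟩

/-! ### lists of pairs -/

theorem rr_cons (a : ℕ × ℕ) (L : List (ℕ × ℕ)) (q : ℕ) :
    rr (a :: L) q = if q = a.2 then a.1 else rr L q := by
  have e : rr (a :: L) q = cond (Nat.beq q a.2) a.1 (rr L q) := rfl
  rw [e]
  by_cases h : q = a.2
  · subst h; simp
  · rw [if_neg h]
    have : Nat.beq q a.2 = false := by
      cases hh : Nat.beq q a.2 with
      | true => exact absurd (Nat.eq_of_beq_eq_true hh) h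
      | false => rfl
    rw [this]; rfl

theorem rr_or (L : List (ℕ × ℕ)) (q : ℕ) : rr L q = q ∨ (rr L q, q) ∈ L := by
  induction L with
  | nil => left; rfl
  | cons a L ih =>
    rw [rr_cons]
    split
    · next h => right; rw [h]; exact List.mem_cons_self
    · rcases ih with h | h
      · left; exact h
      · right; exact List.mem_cons_of_mem _ h

theorem rr_not {L : List (ℕ × ℕ)} {q : ℕ} (h : ∀ a ∈ L, a.2 ≠ q) : rr L q = q := by
  rcases rr_or L q with e | e
  · exact e
  · exact absurd rfl (h _ e)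

theorem blk_bit (L : List (ℕ × ℕ)) (q i : ℕ) (h : (blk L q).testBit i = true) :
    i = q ∨ (q, i) ∈ L := by
  induction L with
  | nil =>
    left
    have e : blk [] q = bt q := rfl
    rw [e, bt_tb, decide_eq_true_eq] at h
    exact h.symm
  | cons a L ih =>
    have e : blk (a :: L) q = cond (Nat.beq q a.1) (Nat.lor (bt a.2) (blk L q)) (blk L q) := rfl
    rw [e] at h
    cases hb : Nat.beq q a.1 with
    | true =>
      rw [hb, cond_true] at h
      have h' : (bt a.2 ||| blk L q).testBit i = true := h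
      rw [Nat.testBit_or, Bool.or_eq_true, bt_tb, decide_eq_true_eq] at h'
      rcases h' with h' | h'
      · right
        have := Nat.eq_of_beq_eq_true hb
        rw [this, ← h']
        exact List.mem_cons_self
      · rcases ih h' with h'' | h''
        · left; exact h''
        · right; exact List.mem_cons_of_mem _ h''
    | false =>
      rw [hb, cond_false] at h
      rcases ih h with h'' | h''
      · left; exact h''
      · right; exact List.mem_cons_of_mem _ h''

theorem nbU_bit (L : List (ℕ × ℕ)) (q m i : ℕ) (hm : m = q ∨ (q, m) ∈ L)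
    (h : (nbq m).testBit i = true) : (nbU L q).testBit i = true := by
  induction L with
  | nil =>
    rcases hm with rfl | hm
    · exact h
    · simp at hm
  | cons a L ih =>
    have e : nbU (a :: L) q = cond (Nat.beq q a.1) (Nat.lor (nbq a.2) (nbU L q)) (nbU L q) := rfl
    rw [e]
    by_cases hq : q = a.1
    · have : Nat.beq q a.1 = true := by rw [hq]; simp
      rw [this, cond_true]
      show (nbq a.2 ||| nbU L q).testBit i = true
      rw [Nat.testBit_or, Bool.or_eq_true]
      rcases hm with rfl | hm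
      · right; exact ih (Or.inl rfl)
      · rcases List.mem_cons.mp hm with hm | hm
        · left; rw [← hm]; exact h
        · right; exact ih (Or.inr hm)
    · have : Nat.beq q a.1 = false := by
        cases hh : Nat.beq q a.1 with
        | true => exact absurd (Nat.eq_of_beq_eq_true hh) hq
        | false => rfl
      rw [this, cond_false]
      rcases hm with rfl | hm
      · exact ih (Or.inl rfl)
      · rcases List.mem_cons.mp hm with hm | hm
        · exact absurd (by rw [← hm]) hq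
        · exact ih (Or.inr hm)

theorem mapU_bit (L : List (ℕ × ℕ)) (hv : ∀ a ∈ L, ∀ b ∈ L, a.1 ≠ b.2) : ∀ (U i : ℕ),
    U.testBit i = true → (mapU L U).testBit (rr L i) = true := by
  induction L with
  | nil => intro U i h; exact h
  | cons a L ih =>
    intro U i h
    have ih' := ih (fun a ha b hb => hv a (List.mem_cons_of_mem _ ha) b
      (List.mem_cons_of_mem _ hb))
    have e : mapU (a :: L) U = mapU L (cond (tb U a.2)
      (Nat.lor (Nat.xor U (bt a.2)) (bt a.1)) U) := rfl
    rw [e, rr_cons]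
    by_cases hi : i = a.2
    · subst hi
      rw [if_pos rfl, tb_eq, h, cond_true]
      have h1 : ((U ^^^ bt a.2) ||| bt a.1).testBit a.1 = true := by
        rw [Nat.testBit_or, bt_tb]; simp
      have h2 := ih' _ _ h1
      rwa [rr_not (fun b hb => Ne.symm (hv a List.mem_cons_self b
        (List.mem_cons_of_mem _ hb)))] at h2
    · rw [if_neg hi]
      apply ih'
      cases ht : tb U a.2 with
      | false => exact h
      | true =>
        rw [cond_true]
        show ((U ^^^ bt a.2) ||| bt a.1).testBit i = true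
        rw [Nat.testBit_or, Nat.testBit_xor, bt_tb, h]
        have : decide (a.2 = i) = false := by
          rw [decide_eq_false_iff_not]; exact fun h => hi h.symm
        rw [this]; simp

theorem mm_bit (L : List (ℕ × ℕ)) (a : ℕ × ℕ) (ha : a ∈ L) :
    (mm L).testBit a.1 = true ∧ (mm L).testBit a.2 = true := by
  induction L with
  | nil => simp at ha
  | cons b L ih =>
    have e : mm (b :: L) = (bt b.1 ||| bt b.2) ||| mm L := rfl
    rw [e]
    simp only [Nat.testBit_or, bt_tb, Bool.or_eq_true, decide_eq_true_eq]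
    rcases List.mem_cons.mp ha with rfl | ha
    · exact ⟨Or.inl (Or.inl rfl), Or.inl (Or.inr rfl)⟩
    · exact ⟨Or.inr (ih ha).1, Or.inr (ih ha).2⟩

theorem clr_bit (U i : ℕ) (h : U.testBit i = true) :
    i = Nat.log2 U ∨ (clr U).testBit i = true := by
  by_cases hi : i = Nat.log2 U
  · left; exact hi
  · right
    have hU : U ≠ 0 := by
      rintro rfl; simp at h
    have e : clr U = U ^^^ bt (Nat.log2 U) := by
      unfold clr
      have : Nat.beq U 0 = false := by
        cases hh : Nat.beq U 0 with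
        | true => exact absurd (Nat.eq_of_beq_eq_true hh) hU
        | false => rfl
      rw [this]; rfl
    rw [e, Nat.testBit_xor, bt_tb, h]
    have : decide (Nat.log2 U = i) = false := by
      rw [decide_eq_false_iff_not]; exact fun h => hi h.symm
    rw [this]; rfl

theorem le4_spec (U : ℕ) (h : le4 U = true) : ∃ a b c d : ℕ, ∀ i, U.testBit i = true →
    i = a ∨ i = b ∨ i = c ∨ i = d := by
  refine ⟨Nat.log2 U, Nat.log2 (clr U), Nat.log2 (clr (clr U)), Nat.log2 (clr (clr (clr U))),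
    fun i hi => ?_⟩
  rcases clr_bit _ _ hi with h1 | h1
  · left; exact h1
  rcases clr_bit _ _ h1 with h2 | h2
  · right; left; exact h2
  rcases clr_bit _ _ h2 with h3 | h3
  · right; right; left; exact h3
  rcases clr_bit _ _ h3 with h4 | h4
  · right; right; right; exact h4
  have := Nat.eq_of_beq_eq_true h
  rw [this] at h4
  simp at h4

/-! ### validity of a record -/

structure VL (L : List (ℕ × ℕ)) : Prop where
  b1 : ∀ a ∈ L, b3.testBit a.1 = true
  b2 : ∀ a ∈ L, b3.testBit a.2 = true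
  r2 : ∀ a ∈ L, rr L a.2 = a.1
  ne : ∀ a ∈ L, ∀ b ∈ L, a.1 ≠ b.2

theorem vld_spec (M L : List (ℕ × ℕ)) (h : vld M L = true) : ∀ a ∈ L,
    a.1 ≠ a.2 ∧ b3.testBit a.1 = true ∧ b3.testBit a.2 = true ∧ rr M a.1 = a.1 ∧
      rr M a.2 = a.1 := by
  induction L with
  | nil => intro a ha; simp at ha
  | cons b L ih =>
    have e : vld M (b :: L) = cond (Nat.beq b.1 b.2) false (cond (tb b3 b.1) (cond (tb b3 b.2)
      (cond (Nat.beq (rr M b.1) b.1) (cond (Nat.beq (rr M b.2) b.1) (vld M L) false) false)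
      false) false) := rfl
    rw [e] at h
    cases h0 : Nat.beq b.1 b.2 with
    | true => rw [h0] at h; exact absurd h (by simp)
    | false =>
    cases h1 : tb b3 b.1 with
    | false => rw [h0, h1] at h; exact absurd h (by simp)
    | true =>
    cases h2 : tb b3 b.2 with
    | false => rw [h0, h1, h2] at h; exact absurd h (by simp)
    | true =>
    cases h3 : Nat.beq (rr M b.1) b.1 with
    | false => rw [h0, h1, h2, h3] at h; exact absurd h (by simp)
    | true =>
    cases h4 : Nat.beq (rr M b.2) b.1 with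
    | false => rw [h0, h1, h2, h3, h4] at h; exact absurd h (by simp)
    | true =>
    rw [h0, h1, h2, h3, h4] at h
    intro a ha
    rcases List.mem_cons.mp ha with rfl | ha
    · rw [tb_eq] at h1 h2
      exact ⟨fun e => by rw [e] at h0; simp at h0, h1, h2, Nat.eq_of_beq_eq_true h3,
        Nat.eq_of_beq_eq_true h4⟩
    · exact ih h a ha

theorem VL_of (L : List (ℕ × ℕ)) (h : vld L L = true) : VL L := by
  have hs := vld_spec L L h
  refine ⟨fun a ha => (hs a ha).2.1, fun a ha => (hs a ha).2.2.1, fun a ha => (hs a ha).2.2.2.2,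
    ?_⟩
  intro a ha b hb e
  have h1 := (hs a ha).2.2.2.1
  have h2 := (hs b hb).2.2.2.2
  rw [← e, h1] at h2
  exact (hs b hb).1 (by rw [← h2, e])

theorem rOf_3 {L : List (ℕ × ℕ)} {p : ℤ × ℤ} (h : hn p ≤ 3) : rOf L p = p6 (rr L (c6 p)) :=
  if_pos h

theorem rOf_out {L : List (ℕ × ℕ)} {p : ℤ × ℤ} (h : 3 < hn p) : rOf L p = p :=
  if_neg (by omega)

/-- `rr` preserves the codes of the ball of radius 3 -/
theorem rr_b3 {L : List (ℕ × ℕ)} (hL : VL L) {q : ℕ} (h : b3.testBit q = true) :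
    b3.testBit (rr L q) = true := by
  rcases rr_or L q with e | e
  · rw [e]; exact h
  · exact hL.b1 _ e

theorem rr_idem {L : List (ℕ × ℕ)} (hL : VL L) (q : ℕ) : rr L (rr L q) = rr L q := by
  rcases rr_or L q with e | e
  · rw [e, e]
  · exact rr_not (fun b hb => Ne.symm (hL.ne _ e b hb))

theorem rOf_inn {L : List (ℕ × ℕ)} (hL : VL L) {p : ℤ × ℤ} (h : hn p ≤ 3) :
    hn (rOf L p) ≤ 3 := by
  rw [rOf_3 h]
  exact b3_p6 (rr_b3 hL ((b3_iff (by omega)).mpr h))

theorem rOf_idem {L : List (ℕ × ℕ)} (hL : VL L) (p : ℤ × ℤ) :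
    rOf L (rOf L p) = rOf L p := by
  by_cases h : hn p ≤ 3
  · rw [rOf_3 (rOf_inn hL h), rOf_3 h, c6_p6, rr_idem hL]
  · have h' := rOf_out (L := L) (show 3 < hn p by omega)
    rw [h', h']

/-- for a point of the ball of radius 6 -/
theorem c6_rOf {L : List (ℕ × ℕ)} (hL : VL L) {p : ℤ × ℤ} (h : hn p ≤ 6) :
    c6 (rOf L p) = rr L (c6 p) := by
  by_cases h3 : hn p ≤ 3
  · rw [rOf_3 h3, c6_p6]
  · rw [rOf_out (by omega)]
    rw [rr_not]
    intro a ha e
    apply h3
    rw [← b3_iff h, ← e]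
    exact hL.b2 a ha

theorem rOf_5 {L : List (ℕ × ℕ)} (hL : VL L) {p : ℤ × ℤ} (h : hn p ≤ 5) :
    hn (rOf L p) ≤ 5 := by
  by_cases h3 : hn p ≤ 3
  · have := rOf_inn hL h3; omega
  · rw [rOf_out (by omega)]; exact h

/-! ### the invariant -/

section inv

variable (L : List (ℕ × ℕ)) (R : Finset (ℤ × ℤ))

/-- remaining neighbours -/
noncomputable def nbs (x : ℤ × ℤ) : Finset (ℤ × ℤ) :=
  (hB 6).filter (fun y => (y ∈ R ∨ hn y = 6) ∧ y ≠ x ∧
      ∃ p q, rOf L p = x ∧ rOf L q = y ∧ hn (q - p) = 1)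

def Inv (D : ℕ) : Prop := ∀ p, hn p ≤ 6 → D.testBit (c6 p) = true → hn p ≤ 5 ∧ rOf L p ∉ R

variable {L R}

theorem not_D (hL : VL L) (hR : ∀ x ∈ R, hn x ≤ 5) {D : ℕ} (hD : Inv L R D) {q y : ℤ × ℤ}
    (hq : hn q ≤ 6) (hy : y ∈ R ∨ hn y = 6) (e : rOf L q = y) : D.testBit (c6 q) = false := by
  cases h : D.testBit (c6 q) with
  | false => rfl
  | true =>
    exfalso
    obtain ⟨h5, h6⟩ := hD q hq h
    rw [e] at h6
    rcases hy with hy | hy
    · exact h6 hy
    · have := rOf_5 hL h5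
      rw [e] at this
      omega

/-- the explicit deletion step -/
theorem okd_card (hL : VL L) (hR : ∀ x ∈ R, hn x ≤ 5 ∧ rOf L x = x) {D q : ℕ}
    (hD : Inv L R D) (hq : okd L D q = true) (hqR : p6 q ∈ R) :
    (nbs L R (p6 q)).card ≤ 4 := by
  obtain ⟨a, b, c, d, h⟩ := le4_spec _ hq
  have hsub : nbs L R (p6 q) ⊆ {p6 a, p6 b, p6 c, p6 d} := by
    intro y hy
    obtain ⟨hy6, hyR, hne, p, q', hp, hq', hpq⟩ := by
      have := Finset.mem_filter.mp hy
      exact (⟨this.1, this.2.1, this.2.2.1, this.2.2.2⟩ :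
        y ∈ hB 6 ∧ (y ∈ R ∨ hn y = 6) ∧ y ≠ p6 q ∧ ∃ p q', rOf L p = p6 q ∧ rOf L q' = y ∧
          hn (q' - p) = 1)
    have hy6' : hn y ≤ 6 := (Finset.mem_filter.mp hy6).2
    have hx5 := (hR _ hqR).1
    have hp5 : hn p ≤ 5 := by
      by_cases h3 : hn p ≤ 3
      · omega
      · rw [rOf_out (by omega)] at hp
        rw [hp]; exact hx5
    have hq6 : hn q' ≤ 6 := hn_nb hp5 hpq
    have hm : c6 p = q ∨ (q, c6 p) ∈ L := by
      have e : rr L (c6 p) = q := by rw [← c6_rOf hL (by omega), hp, c6_p6]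
      rcases rr_or L (c6 p) with e1 | e1
      · left; rw [← e1, e]
      · right; rwa [e] at e1
    have h1 := nbU_bit L q (c6 p) (c6 q') hm (nb_mask hp5 hpq)
    have h2 := not_D hL (fun x hx => (hR x hx).1) hD hq6 hyR hq'
    have h3 : (Nat.xor (nbU L q) (Nat.land (nbU L q) D)).testBit (c6 q') = true := by
      show ((nbU L q) ^^^ ((nbU L q) &&& D)).testBit (c6 q') = true
      rw [Nat.testBit_xor, Nat.testBit_and, h1, h2]; rfl
    have h4 := mapU_bit L (fun a ha b hb => hL.ne a ha b hb) _ _ h3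
    rw [← c6_rOf hL hq6, hq'] at h4
    have h5 := h _ h4
    rw [← p6_c6 hy6']
    simp only [Finset.mem_insert, Finset.mem_singleton]
    rcases h5 with h5 | h5 | h5 | h5
    · left; rw [h5]
    · right; left; rw [h5]
    · right; right; left; rw [h5]
    · right; right; right; rw [h5]
  exact (Finset.card_le_card hsub).trans Finset.card_le_four

theorem inv_blk (hL : VL L) (hR : ∀ x ∈ R, hn x ≤ 5 ∧ rOf L x = x)
    (hbad : ∀ x ∈ R, 5 ≤ (nbs L R x).card) {D q : ℕ} (hD : Inv L R D)
    (hq5 : b5.testBit q = true) (hr : rr L q = q) (hq : okd L D q = true) :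
    Inv L R (Nat.lor D (blk L q)) := by
  have hqR : p6 q ∉ R := fun hc => by
    have := hbad _ hc
    have := okd_card hL hR hD hq hc
    omega
  intro p hp h
  have h' : (D ||| blk L q).testBit (c6 p) = true := h
  rw [Nat.testBit_or, Bool.or_eq_true] at h'
  rcases h' with h' | h'
  · exact hD p hp h'
  · rcases blk_bit L q _ h' with e | e
    · have e2 : p = p6 q := by rw [← e, p6_c6 hp]
      have h5 : hn p ≤ 5 := by rw [e2]; exact b5_p6 hq5
      refine ⟨h5, ?_⟩
      have : c6 (rOf L p) = q := by rw [c6_rOf hL hp, e, hr]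
      have h6 : rOf L p = p6 q := by
        rw [← this, p6_c6]
        have := rOf_5 hL h5
        omega
      rw [h6]; exact hqR
    · have hb := hL.b2 _ e
      have h3 : hn p ≤ 3 := (b3_iff hp).mp hb
      refine ⟨by omega, ?_⟩
      rw [rOf_3 h3, hL.r2 _ e]
      exact hqR

/-- two deleted neighbours -/
theorem ge2_spec {D : ℕ} {p : ℤ × ℤ} (hp : hn p ≤ 5) (h : (ge2 D).testBit (c6 p) = true) :
    ∃ i j : Fin 6, i ≠ j ∧ D.testBit (c6 (p + dr i)) = true ∧
      D.testBit (c6 (p + dr j)) = true := by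
  have hb : 17 ≤ c6 p := by
    have h1 := c6_int (p := p) (by omega)
    have h2 := hn_le hp
    omega
  have c0 : c6 (p + dr 0) = 1 + c6 p := by have := c6_nb hp 0; simp [dl] at this; omega
  have c1 : c6 (p + dr 1) = c6 p - 1 := by have := c6_nb hp 1; simp [dl] at this; omega
  have c2 : c6 (p + dr 2) = 16 + c6 p := by have := c6_nb hp 2; simp [dl] at this; omega
  have c3 : c6 (p + dr 3) = c6 p - 16 := by have := c6_nb hp 3; simp [dl] at this; omega
  have c4 : c6 (p + dr 4) = 15 + c6 p := by have := c6_nb hp 4; simp [dl] at this; omega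
  have c5 : c6 (p + dr 5) = c6 p - 15 := by have := c6_nb hp 5; simp [dl] at this; omega
  have s0 : (Nat.shiftRight D 1).testBit (c6 p) = D.testBit (c6 (p + dr 0)) := by
    rw [c0]; show (D >>> 1).testBit (c6 p) = _; rw [Nat.testBit_shiftRight]
  have s1 : (Nat.shiftLeft D 1).testBit (c6 p) = D.testBit (c6 (p + dr 1)) := by
    rw [c1]; show (D <<< 1).testBit (c6 p) = _; rw [Nat.testBit_shiftLeft]
    rw [decide_eq_true (by omega : c6 p ≥ 1)]; rfl
  have s2 : (Nat.shiftRight D 16).testBit (c6 p) = D.testBit (c6 (p + dr 2)) := by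
    rw [c2]; show (D >>> 16).testBit (c6 p) = _; rw [Nat.testBit_shiftRight]
  have s3 : (Nat.shiftLeft D 16).testBit (c6 p) = D.testBit (c6 (p + dr 3)) := by
    rw [c3]; show (D <<< 16).testBit (c6 p) = _; rw [Nat.testBit_shiftLeft]
    rw [decide_eq_true (by omega : c6 p ≥ 16)]; rfl
  have s4 : (Nat.shiftRight D 15).testBit (c6 p) = D.testBit (c6 (p + dr 4)) := by
    rw [c4]; show (D >>> 15).testBit (c6 p) = _; rw [Nat.testBit_shiftRight]
  have s5 : (Nat.shiftLeft D 15).testBit (c6 p) = D.testBit (c6 (p + dr 5)) := by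
    rw [c5]; show (D <<< 15).testBit (c6 p) = _; rw [Nat.testBit_shiftLeft]
    rw [decide_eq_true (by omega : c6 p ≥ 15)]; rfl
  have key : ∀ S0 S1 S2 S3 S4 S5 : ℕ, ((fun g1 g2 => (fun h1 h2 => (fun i1 i2 => (fun j1 j2 =>
      Nat.lor j2 (Nat.land j1 S5))
      (Nat.lor i1 S4) (Nat.lor i2 (Nat.land i1 S4)))
      (Nat.lor h1 S3) (Nat.lor h2 (Nat.land h1 S3)))
      (Nat.lor g1 S2) (Nat.lor g2 (Nat.land g1 S2)))
      (Nat.lor S0 S1) (Nat.land S0 S1)).testBit (c6 p) = true →
      ∃ i j : Fin 6, i ≠ j ∧ (![S0, S1, S2, S3, S4, S5] i).testBit (c6 p) = true ∧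
        (![S0, S1, S2, S3, S4, S5] j).testBit (c6 p) = true := by
    intro S0 S1 S2 S3 S4 S5 h
    have h' : ((((((S0 &&& S1) ||| ((S0 ||| S1) &&& S2)) ||| (((S0 ||| S1) ||| S2) &&& S3)) |||
      ((((S0 ||| S1) ||| S2) ||| S3) &&& S4)) |||
      (((((S0 ||| S1) ||| S2) ||| S3) ||| S4) &&& S5))).testBit (c6 p) = true := h
    simp only [Nat.testBit_or, Nat.testBit_and, Bool.or_eq_true, Bool.and_eq_true] at h'
    rcases h' with (((h | ⟨h | h, h2⟩) | ⟨(h | h) | h, h2⟩) | ⟨((h | h) | h) | h, h2⟩) |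
      ⟨(((h | h) | h) | h) | h, h2⟩
    · exact ⟨0, 1, by decide, h.1, h.2⟩
    · exact ⟨0, 2, by decide, h, h2⟩
    · exact ⟨1, 2, by decide, h, h2⟩
    · exact ⟨0, 3, by decide, h, h2⟩
    · exact ⟨1, 3, by decide, h, h2⟩
    · exact ⟨2, 3, by decide, h, h2⟩
    · exact ⟨0, 4, by decide, h, h2⟩
    · exact ⟨1, 4, by decide, h, h2⟩
    · exact ⟨2, 4, by decide, h, h2⟩
    · exact ⟨3, 4, by decide, h, h2⟩
    · exact ⟨0, 5, by decide, h, h2⟩
    · exact ⟨1, 5, by decide, h, h2⟩
    · exact ⟨2, 5, by decide, h, h2⟩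
    · exact ⟨3, 5, by decide, h, h2⟩
    · exact ⟨4, 5, by decide, h, h2⟩
  obtain ⟨i, j, hij, hi, hj⟩ := key _ _ _ _ _ _ h
  have conv : ∀ i : Fin 6, (![Nat.shiftRight D 1, Nat.shiftLeft D 1, Nat.shiftRight D 16,
      Nat.shiftLeft D 16, Nat.shiftRight D 15, Nat.shiftLeft D 15] i).testBit (c6 p) =
      D.testBit (c6 (p + dr i)) := by
    intro i
    fin_cases i
    · exact s0
    · exact s1
    · exact s2
    · exact s3
    · exact s4
    · exact s5
  exact ⟨i, j, hij, by rw [← conv]; exact hi, by rw [← conv]; exact hj⟩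

theorem inv_clo (hL : VL L) (hR : ∀ x ∈ R, hn x ≤ 5 ∧ rOf L x = x)
    (hbad : ∀ x ∈ R, 5 ≤ (nbs L R x).card) {D : ℕ} (hD : Inv L R D) :
    Inv L R (clo (Nat.xor b5 (Nat.land b5 (mm L))) D) := by
  intro p hp h
  have h' : (D ||| (ge2 D &&& (b5 ^^^ (b5 &&& mm L)))).testBit (c6 p) = true := h
  rw [Nat.testBit_or, Nat.testBit_and, Nat.testBit_xor, Nat.testBit_and, Bool.or_eq_true,
    Bool.and_eq_true] at h'
  rcases h' with h' | ⟨h1, h2⟩
  · exact hD p hp h'
  · have h5 : b5.testBit (c6 p) = true := by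
      cases hh : b5.testBit (c6 p) with
      | true => rfl
      | false => rw [hh] at h2; simp at h2
    have hm : (mm L).testBit (c6 p) = false := by
      cases hh : (mm L).testBit (c6 p) with
      | false => rfl
      | true => rw [hh, h5] at h2; simp at h2
    have hp5 : hn p ≤ 5 := (b5_iff hp).mp h5
    refine ⟨hp5, ?_⟩
    -- `p` is in no pair
    have hrp : rOf L p = p := by
      by_cases h3 : hn p ≤ 3
      · rw [rOf_3 h3, rr_not, p6_c6 hp]
        intro a ha e
        have := (mm_bit L a ha).2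
        rw [e, hm] at this
        simp at this
      · exact rOf_out (by omega)
    have hfib : ∀ q, rOf L q = p → q = p := by
      intro q hq
      by_cases h3 : hn q ≤ 3
      · have e : rr L (c6 q) = c6 p := by rw [← c6_rOf hL (by omega), hq]
        rcases rr_or L (c6 q) with e1 | e1
        · rw [e] at e1
          rw [← p6_c6 hp, e1, p6_c6 (by omega)]
        · exfalso
          have := (mm_bit L _ e1).1
          rw [show (rr L (c6 q), c6 q).1 = c6 p from e, hm] at this
          simp at this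
      · rwa [rOf_out (by omega)] at hq
    rw [hrp]
    intro hc
    have hcard := hbad p hc
    obtain ⟨i, j, hij, hi, hj⟩ := ge2_spec hp5 h1
    have hsub : nbs L R p ⊆ ((univ.erase i).erase j).image (fun k => rOf L (p + dr k)) := by
      intro y hy
      obtain ⟨hyR, q, q', hq, hq', hpq⟩ := by
        have := Finset.mem_filter.mp hy
        exact (⟨this.2.1, this.2.2.2⟩ : (y ∈ R ∨ hn y = 6) ∧
          ∃ p' q', rOf L p' = p ∧ rOf L q' = y ∧ hn (q' - p') = 1)
      rw [hfib q hq] at hpq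
      have hq6 := hn_nb hp5 hpq
      have hnD := not_D hL (fun x hx => (hR x hx).1) hD hq6 hyR hq'
      obtain ⟨k, hk⟩ := hn_one.mp hpq
      have hk' : q' = p + dr k := by rw [← hk]; simp
      rw [Finset.mem_image]
      refine ⟨k, ?_, by rw [← hk', hq']⟩
      rw [hk'] at hnD
      rw [Finset.mem_erase, Finset.mem_erase]
      refine ⟨?_, ?_, Finset.mem_univ _⟩
      · rintro rfl; rw [hj] at hnD; simp at hnD
      · rintro rfl; rw [hi] at hnD; simp at hnD
    have h3 := (Finset.card_le_card hsub).trans Finset.card_image_le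
    rw [Finset.card_erase_of_mem (Finset.mem_erase.mpr ⟨Ne.symm hij, Finset.mem_univ _⟩),
      Finset.card_erase_of_mem (Finset.mem_univ _), Finset.card_univ, Fintype.card_fin] at h3
    omega

theorem inv_zero : Inv L R 0 := by
  intro p _ h
  simp at h

theorem inv_dstep (hL : VL L) (hR : ∀ x ∈ R, hn x ≤ 5 ∧ rOf L x = x)
    (hbad : ∀ x ∈ R, 5 ≤ (nbs L R x).card) {D : ℕ} (q : ℕ) (hD : Inv L R D) :
    Inv L R (dstep L (Nat.xor b5 (Nat.land b5 (mm L))) D q) := by
  unfold dstep
  cases h1 : Nat.beq q 255 with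
  | true => rw [cond_true]; exact inv_clo hL hR hbad hD
  | false =>
    rw [cond_false]
    cases h2 : tb b5 q with
    | false => rw [cond_false]; exact inv_zero
    | true =>
      rw [cond_true]
      cases h3 : Nat.beq (rr L q) q with
      | false => rw [cond_false]; exact inv_zero
      | true =>
        rw [cond_true]
        cases h4 : okd L D q with
        | false => rw [cond_false]; exact inv_zero
        | true =>
          rw [cond_true]
          rw [tb_eq] at h2
          exact inv_blk hL hR hbad hD h2 (Nat.eq_of_beq_eq_true h3) h4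

theorem inv_dseq (hL : VL L) (hR : ∀ x ∈ R, hn x ≤ 5 ∧ rOf L x = x)
    (hbad : ∀ x ∈ R, 5 ≤ (nbs L R x).card) (f : ℕ) : ∀ (e D : ℕ), Inv L R D →
    Inv L R (dseq L (Nat.xor b5 (Nat.land b5 (mm L))) f e D) := by
  induction f with
  | zero => intro e D hD; exact hD
  | succ f ih =>
    intro e D hD
    have e1 : dseq L (Nat.xor b5 (Nat.land b5 (mm L))) (f + 1) e D = cond (Nat.beq e 0) D
      (dseq L (Nat.xor b5 (Nat.land b5 (mm L))) f (Nat.shiftRight e 8)
        (dstep L (Nat.xor b5 (Nat.land b5 (mm L))) D (Nat.land e 255))) := rfl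
    rw [e1]
    cases h : Nat.beq e 0 with
    | true => rw [cond_true]; exact hD
    | false => rw [cond_false]; exact ih _ _ (inv_dstep hL hR hbad _ hD)

theorem inv_cseq (hL : VL L) (hR : ∀ x ∈ R, hn x ≤ 5 ∧ rOf L x = x)
    (hbad : ∀ x ∈ R, 5 ≤ (nbs L R x).card) (f : ℕ) : ∀ D : ℕ, Inv L R D →
    cseq (Nat.xor b5 (Nat.land b5 (mm L))) f D = true → Inv L R b5 := by
  induction f with
  | zero =>
    intro D hD h
    have : Nat.beq D b5 = true := h
    rw [← Nat.eq_of_beq_eq_true this]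
    exact hD
  | succ f ih =>
    intro D hD h
    have e1 : cseq (Nat.xor b5 (Nat.land b5 (mm L))) (f + 1) D = cond (Nat.beq D b5) true
      (cseq (Nat.xor b5 (Nat.land b5 (mm L))) f
        (clo (Nat.xor b5 (Nat.land b5 (mm L))) D)) := rfl
    rw [e1] at h
    cases h1 : Nat.beq D b5 with
    | true => rw [← Nat.eq_of_beq_eq_true h1]; exact hD
    | false =>
      rw [h1, cond_false] at h
      exact ih _ (inv_clo hL hR hbad hD) h

end inv

theorem good_of (L : List (ℕ × ℕ)) (e : ℕ) (h : gchk L e = true) : Good (rOf L) := by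
  have h1 : vld L L = true := by
    cases hh : vld L L with
    | true => rfl
    | false => unfold gchk at h; rw [hh] at h; exact absurd h (by simp)
  have h2 : cseq (Nat.xor b5 (Nat.land b5 (mm L))) 12
      (dseq L (Nat.xor b5 (Nat.land b5 (mm L))) 30 e 0) = true := by
    unfold gchk at h
    rw [h1, cond_true] at h
    exact h
  have hL := VL_of L h1
  refine ⟨rOf_idem hL, fun p hp => rOf_out hp, fun p hp => rOf_inn hL hp, ?_⟩
  intro R hne hR
  by_contra hc
  push Not at hc
  have hbad : ∀ x ∈ R, 5 ≤ (nbs L R x).card := fun x hx => hc x hx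
  have h3 := inv_cseq hL hR hbad 12 _ (inv_dseq hL hR hbad 30 e 0 inv_zero) h2
  obtain ⟨x, hx⟩ := hne
  obtain ⟨h5, hr⟩ := hR x hx
  have := (h3 x (by omega) ((b5_iff (by omega)).mpr h5)).2
  rw [hr] at this
  exact this hx

theorem allb_spec (f : ℕ → Bool) (n : ℕ) (h : allb f n = true) : ∀ i < n, f i = true := by
  induction n with
  | zero => intro i hi; omega
  | succ n ih =>
    have e : allb f (n + 1) = cond (f n) (allb f n) false := rfl
    rw [e] at h
    cases h1 : f n with
    | false => rw [h1] at h; exact absurd h (by simp)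
    | true =>
      rw [h1, cond_true] at h
      intro i hi
      by_cases hin : i = n
      · rw [hin]; exact h1
      · exact ih h i (by omega)

theorem allb_good {REC : ℕ → ℕ} (a n : ℕ) (E : ℕ → ℕ)
    (h : allb (fun i => gchk (dec 6 (REC (Nat.add a i))) (E i)) n = true) (i : ℕ) (h1 : a ≤ i)
    (h2 : i < a + n) : Good (rOf (dec 6 (REC i))) := by
  have h3 := allb_spec _ n h (i - a) (by omega)
  have h4 : Nat.add a (i - a) = i := by
    show a + (i - a) = i
    omega
  have h5 := good_of _ _ h3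
  rwa [h4] at h5

end Pool.Agent.Helper94.KC.LL
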