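import Pool.Agent.Helper94.KC.L.Tab
import Pool.Agent.Helper94.KC.L.Del

/-!
# Project KC (MP_bf413e_co): the records 6664 to 6670 are good identifications (certificates)
-/

set_option autoImplicit false

namespace Pool.Agent.Helper94.KC.LL

theorem g6664 : allb (fun i => gchk (dec 6 (rec (Nat.add 6664 i))) (Nat.land (Nat.shiftRight
  0x9484ffffff67ffffffffffffffffffffff85770000007456ffffffffffff86ffffffffffffffff75ff7767570000000000008647ffffffffffffffffffffffffff575868770000000000008667ff66ffffffffffffffffffffff575868770000000000000045ff85ffffffffffffffffffffff556566760000000067ff76ffff66ffffffffffffffffffffff575868770000000085ff48ff76ffffffffffffffffffffffffff778658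
  (Nat.mul 200 i)) 1606938044258990275541962092341162602522202993782792835301375)) 7 = true := by decide +kernel

theorem good_14 (i : ℕ) (h1 : 6664 ≤ i) (h2 : i < 6671) : Good (rOf (dec 6 (rec i))) := by
  exact allb_good 6664 7 (fun i => Nat.land (Nat.shiftRight _ (Nat.mul 200 i)) _) g6664 i (by omega) (by omega)

end Pool.Agent.Helper94.KC.LL
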