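import Pool.Agent.Helper94.KC.L.Core

/-!
# Project KC (MP_bf413e_co): soundness of the decision tree
-/

set_option autoImplicit false

namespace Pool.Agent.Helper94.KC.LL

theorem tb_eq (m i : ℕ) : tb m i = m.testBit i := by
  unfold tb
  have h1 : Nat.land (Nat.shiftRight m i) 1 = m / 2 ^ i % 2 := by
    have : Nat.land (Nat.shiftRight m i) 1 = (m >>> i) &&& 1 := rfl
    rw [this, Nat.and_one_is_mod, Nat.shiftRight_eq_div_pow]
  rw [h1, Nat.testBit_eq_decide_div_mod_eq]
  rcases Nat.mod_two_eq_zero_or_one (m / 2 ^ i) with h | h <;> rw [h] <;> rfl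

theorem bt_tb (q i : ℕ) : (bt q).testBit i = decide (q = i) := by
  have : bt q = 1 <<< q := rfl
  rw [this, Nat.one_shiftLeft, Nat.testBit_two_pow]

theorem k0_bit {i : ℕ} (h : k0.testBit i = true) : ∃ k, k < 5 ∧ i = 256 * k := by
  have e : k0 = bt 0 ||| bt 256 ||| bt 512 ||| bt 768 ||| bt 1024 := by decide +kernel
  rw [e] at h
  simp only [Nat.testBit_or, bt_tb, Bool.or_eq_true, decide_eq_true_eq] at h
  rcases h with (((h | h) | h) | h) | h
  · exact ⟨0, by omega, by omega⟩
  · exact ⟨1, by omega, by omega⟩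
  · exact ⟨2, by omega, by omega⟩
  · exact ⟨3, by omega, by omega⟩
  · exact ⟨4, by omega, by omega⟩

theorem nb0_bit {i : ℕ} : (6442614787 : ℕ).testBit i = true ↔
    (i = 0 ∨ i = 1 ∨ i = 15 ∨ i = 17 ∨ i = 31 ∨ i = 32) := by
  have e : (6442614787 : ℕ) = bt 0 ||| bt 1 ||| bt 15 ||| bt 17 ||| bt 31 ||| bt 32 := by
    decide +kernel
  rw [e]
  simp only [Nat.testBit_or, bt_tb, Bool.or_eq_true, decide_eq_true_eq]
  constructor
  · intro h
    rcases h with ((((h | h) | h) | h) | h) | h <;> omega
  · intro h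
    rcases h with h | h | h | h | h | h <;> simp [h]

theorem nbq_bit {q w : ℕ} (h : (nbq q).testBit w = true) : w ≤ q - 16 + 32 ∧ q - 16 ≤ w := by
  have e : nbq q = 6442614787 <<< (q - 16) := rfl
  rw [e, Nat.testBit_shiftLeft, Bool.and_eq_true, decide_eq_true_eq, nb0_bit] at h
  omega

theorem ex_bit {m : ℕ} (h : 0 < m) : ∃ i, m.testBit i = true := by
  by_contra hc
  push Not at hc
  have : m = 0 := by
    apply Nat.eq_of_testBit_eq
    intro i
    have := hc i
    simpa using this
  omega

/-- proper colourings of the ball of radius 3, on codes -/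
def Pr (f : ℕ → ℕ) : Prop := (∀ t, b3.testBit t = true → f t < 5) ∧
  ∀ t w, b3.testBit t = true → b3.testBit w = true → (nbq t).testBit w = true → f t ≠ f w

/-- `f` agrees with the state `s`, which uses only colours less than `u` -/
def St (s u : ℕ) (f : ℕ → ℕ) : Prop := ∀ i, s.testBit i = true →
  b3.testBit (i % 256) = true ∧ i / 256 < u ∧ f (i % 256) = i / 256

/-- some record is monochromatic -/
def Qf (REC : ℕ → ℕ) (N : ℕ) (f : ℕ → ℕ) : Prop := ∃ i < N, ∀ a ∈ dec 6 (REC i), f a.1 = f a.2

def OK (REC : ℕ → ℕ) (N s u : ℕ) : Prop := ∀ f, Pr f → St s u f → Qf REC N f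

theorem b3_lt {t : ℕ} (h : b3.testBit t = true) : t < 240 ∧ 16 ≤ t := by
  constructor
  · by_contra hc
    have h1 : b3 < 2 ^ t := lt_of_lt_of_le (by decide +kernel : b3 < 2 ^ 240)
      (Nat.pow_le_pow_right (by norm_num) (by omega))
    rw [Nat.testBit_lt_two_pow h1] at h
    exact absurd h (by simp)
  · by_contra hc
    have : ∀ t < 16, b3.testBit t = false := by decide +kernel
    rw [this t (by omega)] at h
    exact absurd h (by simp)

theorem mono_spec (s u : ℕ) (f : ℕ → ℕ) (hs : St s u f) : ∀ L : List (ℕ × ℕ),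
    (∀ a ∈ L, a.1 < 256 ∧ a.2 < 256) → mono s L = true → ∀ a ∈ L, f a.1 = f a.2 := by
  intro L
  induction L with
  | nil => intro _ _ a ha; simp at ha
  | cons b L ih =>
    intro hL hm
    have e : mono s (b :: L) = cond (Nat.beq (Nat.land (Nat.land (Nat.shiftRight s b.1)
      (Nat.shiftRight s b.2)) k0) 0) false (mono s L) := rfl
    rw [e] at hm
    have h1 : Nat.beq (Nat.land (Nat.land (Nat.shiftRight s b.1)
      (Nat.shiftRight s b.2)) k0) 0 = false := by
      by_contra hc
      rw [Bool.not_eq_false] at hc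
      rw [hc] at hm
      simp at hm
    rw [h1] at hm
    have h2 : 0 < ((s >>> b.1) &&& (s >>> b.2)) &&& k0 := by
      rcases Nat.eq_zero_or_pos (((s >>> b.1) &&& (s >>> b.2)) &&& k0) with h | h
      · exfalso
        have h' : Nat.land (Nat.land (Nat.shiftRight s b.1) (Nat.shiftRight s b.2)) k0 = 0 := h
        rw [h'] at h1
        simp at h1
      · exact h
    obtain ⟨i, hi⟩ := ex_bit h2
    rw [Nat.testBit_and, Nat.testBit_and, Nat.testBit_shiftRight, Nat.testBit_shiftRight,
      Bool.and_eq_true, Bool.and_eq_true] at hi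
    obtain ⟨⟨ha, hb⟩, hk⟩ := hi
    obtain ⟨k, hk5, rfl⟩ := k0_bit hk
    have hlt := hL b (by simp)
    obtain ⟨_, _, e1⟩ := hs _ ha
    obtain ⟨_, _, e2⟩ := hs _ hb
    have m1 : (b.1 + 256 * k) % 256 = b.1 := by omega
    have m2 : (b.2 + 256 * k) % 256 = b.2 := by omega
    have d1 : (b.1 + 256 * k) / 256 = k := by omega
    have d2 : (b.2 + 256 * k) / 256 = k := by omega
    rw [m1, d1] at e1
    rw [m2, d2] at e2
    intro a ha'
    rcases List.mem_cons.mp ha' with rfl | ha'
    · rw [e1, e2]
    · exact ih (fun a h => hL a (by simp [h])) hm a ha'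

theorem dec_lt : ∀ (f n : ℕ), ∀ a ∈ dec f n, a.1 < 256 ∧ a.2 < 256 := by
  intro f
  induction f with
  | zero => intro n a ha; exact absurd ha (by simp [dec])
  | succ f ih =>
    intro n a ha
    have e : dec (f + 1) n = cond (Nat.beq n 0) []
      ((Nat.land n 255, Nat.land (Nat.shiftRight n 8) 255) :: dec f (Nat.shiftRight n 16)) := rfl
    rw [e] at ha
    cases h : Nat.beq n 0 with
    | true => rw [h] at ha; simp at ha
    | false =>
      rw [h] at ha
      simp only [cond_false, List.mem_cons] at ha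
      rcases ha with rfl | ha
      · have h1 : Nat.land n 255 ≤ 255 := Nat.and_le_right
        have h2 : Nat.land (Nat.shiftRight n 8) 255 ≤ 255 := Nat.and_le_right
        exact ⟨by simpa using Nat.lt_succ_of_le h1, by simpa using Nat.lt_succ_of_le h2⟩
      · exact ih _ a ha

theorem hit_spec (s u t k : ℕ) (f : ℕ → ℕ) (hp : Pr f) (hs : St s u f)
    (ht : b3.testBit t = true) (h : hit s t k = true) : f t ≠ k := by
  have h1 : 0 < (s >>> (256 * k)) &&& nbq t := by
    have := Nat.ble_eq.mp h
    exact this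
  obtain ⟨w, hw⟩ := ex_bit h1
  rw [Nat.testBit_and, Nat.testBit_shiftRight, Bool.and_eq_true] at hw
  obtain ⟨h2, h3⟩ := hw
  obtain ⟨hb, _, e⟩ := hs _ h2
  have hlt := b3_lt ht
  have hn := nbq_bit h3
  have m1 : (256 * k + w) % 256 = w := by omega
  have d1 : (256 * k + w) / 256 = k := by omega
  rw [m1] at hb
  rw [m1, d1] at e
  rw [← e]
  exact hp.2 t w ht hb h3

/-- the extended state -/
theorem add_spec (s u t : ℕ) (f : ℕ → ℕ) (hs : St s u f) (ht : b3.testBit t = true)
    (hu : f t ≤ u) : St (add s t (f t)) (if u = f t then u + 1 else u) f := by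
  intro i hi
  have e : add s t (f t) = s ||| bt (256 * f t + t) := rfl
  rw [e, Nat.testBit_or, Bool.or_eq_true] at hi
  have hlt := b3_lt ht
  rcases hi with hi | hi
  · obtain ⟨h1, h2, h3⟩ := hs i hi
    refine ⟨h1, ?_, h3⟩
    split <;> omega
  · rw [bt_tb, decide_eq_true_eq] at hi
    subst hi
    have m1 : (256 * f t + t) % 256 = t := by omega
    have d1 : (256 * f t + t) / 256 = f t := by omega
    rw [m1, d1]
    refine ⟨ht, ?_, rfl⟩
    split <;> omega

def Snd (REC : ℕ → ℕ) (N : ℕ) (ih : ℕ → ℕ → ℕ → (ℕ → Bool) → Bool) : Prop :=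
  ∀ s u n k, ih s u n k = true → OK REC N s u ∧ ∃ n', k n' = true

theorem nst_spec (REC : ℕ → ℕ) (N : ℕ) (ih : ℕ → ℕ → ℕ → (ℕ → Bool) → Bool)
    (hih : Snd REC N ih) (s u t j m : ℕ) (c : ℕ → Bool) (h : nst ih s u t j m c = true) :
    (u < j ∨ hit s t j = true ∨ OK REC N (add s t j) (if u = j then u + 1 else u)) ∧
      ∃ m', c m' = true := by
  unfold nst at h
  cases h1 : Nat.blt u j with
  | true =>
    rw [h1] at h
    exact ⟨Or.inl (Nat.ble_eq.mp h1), ⟨m, h⟩⟩
  | false =>
    rw [h1] at h
    cases h2 : hit s t j with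
    | true =>
      rw [h2] at h
      exact ⟨Or.inr (Or.inl rfl), ⟨m, h⟩⟩
    | false =>
      rw [h2] at h
      have h3 := hih _ _ _ _ h
      refine ⟨Or.inr (Or.inr ?_), h3.2⟩
      have e : (cond (Nat.beq u j) (Nat.succ u) u) = if u = j then u + 1 else u := by
        by_cases huj : u = j
        · subst huj; simp
        · have : Nat.beq u j = false := by
            cases hh : Nat.beq u j with
            | true => exact absurd (Nat.eq_of_beq_eq_true hh) huj
            | false => rfl
          rw [this, if_neg huj]; rfl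
      rw [e] at h3
      exact h3.1

theorem swap_Pr (f : ℕ → ℕ) (hf : Pr f) (a b : ℕ) (ha : a < 5) (hb : b < 5) :
    Pr (fun t => Equiv.swap a b (f t)) := by
  refine ⟨fun t ht => ?_, fun t w ht hw h e => hf.2 t w ht hw h ((Equiv.swap a b).injective e)⟩
  have := hf.1 t ht
  show Equiv.swap a b (f t) < 5
  rw [Equiv.swap_apply_def]
  split_ifs <;> omega

theorem bdy_spec (REC : ℕ → ℕ) (N : ℕ) (orc : ℕ → ℕ → ℕ → Bool)
    (horc : ∀ j s u, orc j s u = true → OK REC N s u)
    (ih : ℕ → ℕ → ℕ → (ℕ → Bool) → Bool) (hih : Snd REC N ih) (s u tok n' : ℕ)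
    (k : ℕ → Bool) (h : bdy REC N orc ih s u tok n' k = true) :
    OK REC N s u ∧ ∃ m, k m = true := by
  unfold bdy at h
  cases h1 : Nat.blt tok 256 with
  | false =>
    rw [h1, cond_false] at h
    cases h2 : Nat.blt tok 60000 with
    | false =>
      rw [h2, cond_false] at h
      cases h3 : orc (Nat.sub tok 60000) s u with
      | false => rw [h3] at h; exact absurd h (by simp)
      | true =>
        rw [h3] at h
        exact ⟨horc _ _ _ h3, ⟨n', h⟩⟩
    | true =>
      rw [h2, cond_true] at h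
      cases h3 : Nat.blt (Nat.sub tok 256) N with
      | false => rw [h3] at h; exact absurd h (by simp)
      | true =>
        rw [h3, cond_true] at h
        cases h4 : mono s (dec 6 (REC (Nat.sub tok 256))) with
        | false => rw [h4] at h; exact absurd h (by simp)
        | true =>
          rw [h4, cond_true] at h
          refine ⟨fun f hf hs => ⟨Nat.sub tok 256, Nat.ble_eq.mp h3, ?_⟩, ⟨n', h⟩⟩
          exact mono_spec s u f hs _ (dec_lt _ _) h4
  | true =>
    rw [h1, cond_true] at h
    cases h2 : tb b3 tok with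
    | false => rw [h2] at h; exact absurd h (by simp)
    | true =>
      rw [h2, cond_true] at h
      have ht : b3.testBit tok = true := by rw [← tb_eq]; exact h2
      obtain ⟨a0, m0, c0⟩ := nst_spec REC N ih hih _ _ _ _ _ _ h
      obtain ⟨a1, m1, c1⟩ := nst_spec REC N ih hih _ _ _ _ _ _ c0
      obtain ⟨a2, m2, c2⟩ := nst_spec REC N ih hih _ _ _ _ _ _ c1
      obtain ⟨a3, m3, c3⟩ := nst_spec REC N ih hih _ _ _ _ _ _ c2
      obtain ⟨a4, m4, c4⟩ := nst_spec REC N ih hih _ _ _ _ _ _ c3
      refine ⟨?_, ⟨m4, c4⟩⟩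
      have key : ∀ f, Pr f → St s u f → f tok ≤ u → Qf REC N f := by
        intro f hf hs hu
        have hlt := hf.1 tok ht
        have fin : ∀ j, (u < j ∨ hit s tok j = true ∨
            OK REC N (add s tok j) (if u = j then u + 1 else u)) → f tok = j → Qf REC N f := by
          intro j hj e
          rcases hj with hj | hj | hj
          · omega
          · exact absurd e (hit_spec s u tok j f hf hs ht hj)
          · apply hj f hf
            rw [← e]
            exact add_spec s u tok f hs ht hu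
        rcases (by omega : f tok = 0 ∨ f tok = 1 ∨ f tok = 2 ∨ f tok = 3 ∨ f tok = 4) with
          e | e | e | e | e
        · exact fin 0 a0 e
        · exact fin 1 a1 e
        · exact fin 2 a2 e
        · exact fin 3 a3 e
        · exact fin 4 a4 e
      intro f hf hs
      by_cases hu : f tok ≤ u
      · exact key f hf hs hu
      · have hlt := hf.1 tok ht
        have hp' := swap_Pr f hf u (f tok) (by omega) hlt
        have h5 := key (fun t => Equiv.swap u (f tok) (f t)) hp' (by
          intro i hi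
          obtain ⟨q1, q2, q3⟩ := hs i hi
          refine ⟨q1, q2, ?_⟩
          show Equiv.swap u (f tok) (f (i % 256)) = i / 256
          rw [q3, Equiv.swap_apply_of_ne_of_ne] <;> omega) (by
          show Equiv.swap u (f tok) (f tok) ≤ u
          rw [Equiv.swap_apply_right])
        obtain ⟨i, hi, hq⟩ := h5
        exact ⟨i, hi, fun a ha => (Equiv.swap u (f tok)).injective (hq a ha)⟩

theorem run_spec (REC : ℕ → ℕ) (N : ℕ) (orc : ℕ → ℕ → ℕ → Bool)
    (horc : ∀ j s u, orc j s u = true → OK REC N s u) (f : ℕ) :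
    Snd REC N (run REC N orc f) := by
  induction f with
  | zero => intro s u n k h; exact absurd h (by simp [run])
  | succ f ih =>
    intro s u n k h
    exact bdy_spec REC N orc horc _ ih _ _ _ _ _ h

theorem ok_of_run (REC : ℕ → ℕ) (N f s u n : ℕ)
    (h : run REC N (fun _ _ _ => false) f s u n (fun _ => true) = true) : OK REC N s u :=
  (run_spec REC N _ (fun j s u h => absurd h (by simp)) f s u n _ h).1

end Pool.Agent.Helper94.KC.LL
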